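import Pool.Agent.Helper27.BG.St1
import Pool.Agent.Helper90.MT.Lam

/-! Project BG, module LAM: bounds for the sieve coefficients, signed version. -/

set_option linter.unusedSectionVars false

namespace Pool.Agent.Helper27.BG

open Finset
open Pool.Agent.Helper90.MT (lam mat wt szA prt szU VV DD piDD Ok EqD Avd HH Ytil offD MP MD TT)
open Pool.Agent.Helper90.MT.LamAux

namespace LAM41

variable {α ι : Type} [Fintype α] [DecidableEq α] [Fintype ι] [DecidableEq ι]

/-- the sign of the row `b` -/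
noncomputable def sg (b : α → Option ι) : ℝ := ∏ i, if b i = none then (1 : ℝ) else -1

theorem sg_abs (b : α → Option ι) : |sg b| = 1 := by
  unfold sg
  rw [Finset.abs_prod]
  refine Finset.prod_eq_one fun i _ => ?_
  split_ifs <;> simp

theorem TT_eq (p : ℕ) (o o' : Option ι) :
    TT p o o' = (if o = none then (1 : ℝ) else -1) * TA p o o' := by
  rcases o with _ | l
  · rcases o' with _ | l'
    · simp [TA, TT]
    · simp [TA, TT]
  · rcases o' with _ | l'
    · simp [TA, TT]
    · by_cases hl : l = l'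
      · simp [TA, TT, hl]
      · simp [TA, TT, hl]

theorem prod_TT (pr : α → ℕ) (b a : α → Option ι) :
    ∏ i, TT (pr i) (b i) (a i) = sg b * ∏ i, TA (pr i) (b i) (a i) := by
  unfold sg
  rw [← Finset.prod_mul_distrib]
  exact Finset.prod_congr rfl fun i _ => TT_eq _ _ _

theorem lam_eq (pr : α → ℕ) (Y : (α → Option ι) → ℝ) (b : α → Option ι) :
    lam pr Y b = sg b * ∑ a, (∏ i, TA (pr i) (b i) (a i)) * Y a := by
  unfold lam
  rw [Finset.mul_sum]
  refine Finset.sum_congr rfl fun a _ => ?_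
  rw [prod_TT]
  ring

theorem abs_le (pr : α → ℕ) (Y : (α → Option ι) → ℝ) (b : α → Option ι) :
    |lam pr Y b| ≤ |lam pr (fun a => |Y a|) b| := by
  rw [lam_eq, lam_eq, abs_mul, abs_mul, sg_abs, one_mul, one_mul]
  rw [abs_of_nonneg (a := ∑ a, (∏ i, TA (pr i) (b i) (a i)) * |Y a|)]
  · refine (Finset.abs_sum_le_sum_abs _ _).trans (le_of_eq ?_)
    refine Finset.sum_congr rfl fun a _ => ?_
    rw [abs_mul, abs_of_nonneg (Finset.prod_nonneg fun i _ => TA_nonneg _ _ _)]
  · exact Finset.sum_nonneg fun a _ => mul_nonneg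
      (Finset.prod_nonneg fun i _ => TA_nonneg _ _ _) (abs_nonneg _)

end LAM41

theorem hLAM : StLm := by
  intro α ι _ _ _ _ pr Y B Z hp hi hZ hB hs
  have h := Pool.Agent.Helper90.MT.lam_bd α ι pr (fun a => |Y a|) B Z hp hi hZ
    (fun a => abs_nonneg _) hB (fun a ha => hs a (abs_ne_zero.1 ha))
  refine ⟨fun b => (LAM41.abs_le pr Y b).trans (h.1 b), fun b hb => lam_ne pr Y hp hs b hb, ?_⟩
  exact (Finset.sum_le_sum fun b _ => LAM41.abs_le pr Y b).trans h.2.2

end Pool.Agent.Helper27.BG
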