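import Pool.Agent.Helper27.BG.St1

/-! Project BG, module PRS: sums over pairs of assignments, two coefficient families
(adapted from Helper90/MT/Pairs.lean). -/

set_option linter.unusedSectionVars false

namespace Pool.Agent.Helper27.BG

open Finset
open Pool.Agent.Helper90.MT (lam mat wt szA prt szU VV DD piDD Ok EqD Avd HH Ytil offD MP MD TT)

section PRS41

variable {α ι : Type} [Fintype α] [DecidableEq α] [Fintype ι] [DecidableEq ι]

private theorem szA_pos41 (pr : α → ℕ) (hp : ∀ i, (pr i).Prime) (b : α → Option ι) :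
    0 < szA pr b := by
  unfold szA
  refine prod_pos fun i _ => ?_
  split_ifs
  · exact one_pos
  · exact (hp i).pos

private theorem szU_pos41 (pr : α → ℕ) (hp : ∀ i, (pr i).Prime) (b b' : α → Option ι) :
    0 < szU pr b b' := by
  unfold szU
  refine prod_pos fun i _ => ?_
  split_ifs
  · exact one_pos
  · exact (hp i).pos

private theorem szU_le41 (pr : α → ℕ) (hp : ∀ i, (pr i).Prime) (b b' : α → Option ι) :
    szU pr b b' ≤ szA pr b * szA pr b' := by
  unfold szU szA
  rw [← prod_mul_distrib]
  refine prod_le_prod' fun i _ => ?_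
  have h := (hp i).pos
  by_cases h1 : b i = none
  · by_cases h2 : b' i = none
    · simp [h1, h2]
    · simp [h1, h2]
  · by_cases h2 : b' i = none
    · simp [h1, h2]
    · simp only [h1, h2, false_and, if_false]
      nlinarith

private theorem dvd_szU41 (pr : α → ℕ) (b b' : α → Option ι) (i : α)
    (h : ¬ (b i = none ∧ b' i = none)) : pr i ∣ szU pr b b' := by
  unfold szU
  have h1 := dvd_prod_of_mem (fun i => if b i = none ∧ b' i = none then 1 else pr i)
    (mem_univ i)
  simpa [h] using h1

private theorem fib41 (pr : α → ℕ) (hp : ∀ i, (pr i).Prime) (hinj : Function.Injective pr)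
    (W q : ℕ) (hq : 1 ≤ q) :
    #(univ.filter fun p : (α → Option ι) × (α → Option ι) => W * szU pr p.1 p.2 = q) ≤
      ((Fintype.card ι + 1) ^ 2) ^ q.primeFactors.card := by
  classical
  set I : Finset α := univ.filter fun i => pr i ∣ q with hI
  set A : Finset (α → Option ι) := Fintype.piFinset fun i => if i ∈ I then univ else {none}
    with hA
  have h1 : (univ.filter fun p : (α → Option ι) × (α → Option ι) =>
      W * szU pr p.1 p.2 = q) ⊆ A ×ˢ A := by
    rintro ⟨b, b'⟩ h
    rw [mem_filter] at h
    have h2 : ∀ i, i ∉ I → b i = none ∧ b' i = none := by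
      intro i hi
      by_contra hc
      apply hi
      rw [hI, mem_filter]
      refine ⟨mem_univ i, ?_⟩
      rw [← h.2]
      exact (dvd_szU41 pr b b' i hc).mul_left W
    rw [mem_product, hA, Fintype.mem_piFinset, Fintype.mem_piFinset]
    constructor <;> intro i
    · by_cases hi : i ∈ I
      · simp [hi]
      · simp [hi, (h2 i hi).1]
    · by_cases hi : i ∈ I
      · simp [hi]
      · simp [hi, (h2 i hi).2]
  have h2 : #A = (Fintype.card ι + 1) ^ #I := by
    rw [hA, Fintype.card_piFinset]
    have h3 : ∀ i : α, #(if i ∈ I then (univ : Finset (Option ι)) else {none}) =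
        if i ∈ I then Fintype.card ι + 1 else 1 := by
      intro i
      split_ifs
      · rw [card_univ, Fintype.card_option]
      · rw [card_singleton]
    simp only [h3]
    rw [prod_ite]
    simp
  have h3 : #I ≤ q.primeFactors.card := by
    refine card_le_card_of_injOn pr ?_ (fun _ _ _ _ h => hinj h)
    intro i hi
    rw [mem_coe, hI, mem_filter] at hi
    rw [mem_coe, Nat.mem_primeFactors]
    exact ⟨hp i, hi.2, by omega⟩
  calc #(univ.filter fun p : (α → Option ι) × (α → Option ι) => W * szU pr p.1 p.2 = q)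
      ≤ #(A ×ˢ A) := card_le_card h1
    _ = ((Fintype.card ι + 1) ^ 2) ^ #I := by
        rw [card_product, h2, ← pow_mul, two_mul, pow_add]
    _ ≤ _ := Nat.pow_le_pow_right (by positivity) h3

end PRS41

theorem hPRS : StPrs := by
  intro α ι _ _ _ _ pr lm lm' B B' Z Z' W Q E hp hinj hW hB hB' hZ hZ' hQ hE
  have hB0 : 0 ≤ B := (abs_nonneg _).trans (hB fun _ => none)
  have hB0' : 0 ≤ B' := (abs_nonneg _).trans (hB' fun _ => none)
  have h1 : ∀ b b' : α → Option ι, |lm b| * |lm' b'| * E (W * szU pr b b') ≤
      ∑ q ∈ Icc 1 Q, if W * szU pr b b' = q then B * B' * E q else 0 := by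
    intro b b'
    have hnn : 0 ≤ ∑ q ∈ Icc 1 Q, if W * szU pr b b' = q then B * B' * E q else 0 := by
      refine sum_nonneg fun q _ => ?_
      split_ifs
      · exact mul_nonneg (mul_nonneg hB0 hB0') (hE q)
      · exact le_rfl
    by_cases hb : lm b = 0
    · rw [hb]
      simpa using hnn
    · by_cases hb' : lm' b' = 0
      · rw [hb']
        simpa using hnn
      · have hz := hZ b hb
        have hz' := hZ' b' hb'
        have hle : W * szU pr b b' ≤ Q := by
          have h2 : (szU pr b b' : ℝ) ≤ Z * Z' := by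
            have h3 : (szU pr b b' : ℝ) ≤ (szA pr b : ℝ) * szA pr b' := by
              exact_mod_cast szU_le41 pr hp b b'
            have h4 : (0 : ℝ) ≤ szA pr b := Nat.cast_nonneg _
            have h5 : (0 : ℝ) ≤ szA pr b' := Nat.cast_nonneg _
            exact h3.trans (mul_le_mul hz hz' h5 (h4.trans hz))
          have h3 : (W : ℝ) * szU pr b b' ≤ Q :=
            (mul_le_mul_of_nonneg_left h2 (Nat.cast_nonneg _)).trans hQ
          exact_mod_cast h3
        have hge : 1 ≤ W * szU pr b b' := Nat.mul_pos hW (szU_pos41 pr hp b b')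
        rw [sum_ite_eq, if_pos (mem_Icc.2 ⟨hge, hle⟩)]
        refine mul_le_mul_of_nonneg_right ?_ (hE _)
        exact mul_le_mul (hB b) (hB' b') (abs_nonneg _) hB0
  calc ∑ b, ∑ b', |lm b| * |lm' b'| * E (W * szU pr b b')
      ≤ ∑ b, ∑ b', ∑ q ∈ Icc 1 Q, if W * szU pr b b' = q then B * B' * E q else 0 :=
        sum_le_sum fun b _ => sum_le_sum fun b' _ => h1 b b'
    _ = ∑ q ∈ Icc 1 Q, ∑ p : (α → Option ι) × (α → Option ι),
          if W * szU pr p.1 p.2 = q then B * B' * E q else 0 := by
        simp only [Fintype.sum_prod_type]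
        rw [sum_comm (s := Icc 1 Q)]
        exact sum_congr rfl fun b _ => sum_comm
    _ ≤ ∑ q ∈ Icc 1 Q, B * B' * ((((Fintype.card ι + 1) ^ 2 : ℕ) : ℝ) ^ q.primeFactors.card *
          E q) := by
        refine sum_le_sum fun q hq => ?_
        rw [← sum_filter, sum_const, nsmul_eq_mul]
        have h2 := fib41 (ι := ι) pr hp hinj W q (mem_Icc.1 hq).1
        have h3 : ((#(univ.filter fun p : (α → Option ι) × (α → Option ι) =>
            W * szU pr p.1 p.2 = q) : ℕ) : ℝ) ≤
            (((Fintype.card ι + 1) ^ 2 : ℕ) : ℝ) ^ q.primeFactors.card := by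
          exact_mod_cast h2
        have h4 : 0 ≤ B * B' * E q := mul_nonneg (mul_nonneg hB0 hB0') (hE q)
        nlinarith [mul_le_mul_of_nonneg_right h3 h4]
    _ = _ := by rw [mul_sum]

end Pool.Agent.Helper27.BG
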