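import Pool.Agent.Helper27.BG.St4

/-! Project BG, module ADM: an admissible set of 49 naturals in `[0, 240]`. -/

namespace Pool.Agent.Helper27.BG

namespace ADM41

def T : Finset ℕ := {0, 2, 6, 8, 12, 20, 26, 30, 32, 36, 42, 48, 50, 56, 60, 68, 72, 78, 86, 92,
  98, 102, 110, 116, 120, 126, 132, 138, 140, 146, 152, 156, 158, 162, 168, 170, 176, 180, 182,
  186, 188, 210, 212, 218, 222, 228, 230, 236, 240}

theorem T_card : T.card = 49 := by decide +kernel

theorem T_le : ∀ h ∈ T, h ≤ 240 := by decide +kernel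

theorem T_adm : ∀ p ∈ Finset.Icc 2 240, ∃ r ∈ Finset.range p, ∀ h ∈ T, (r + h) % p ≠ 0 := by
  decide +kernel

end ADM41

theorem hADM : StAdm := by
  refine ⟨ADM41.T, ADM41.T_card, ADM41.T_le, fun p hp => ?_⟩
  by_cases hp1 : p ≤ 240
  · obtain ⟨r, -, hr⟩ := ADM41.T_adm p (Finset.mem_Icc.2 ⟨hp.two_le, hp1⟩)
    exact ⟨r, fun h hh hd => hr h hh (Nat.mod_eq_zero_of_dvd hd)⟩
  · by_cases hp2 : p = 241
    · subst hp2
      refine ⟨2, fun h hh hd => ?_⟩
      have h1 := ADM41.T_le h hh
      have h3 : h ≠ 239 := by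
        rintro rfl
        exact absurd hh (by decide +kernel)
      obtain ⟨c, hc⟩ := hd
      have : c = 1 := by
        rcases c with _ | _ | c
        · omega
        · rfl
        · omega
      omega
    · refine ⟨1, fun h hh hd => ?_⟩
      have h1 := ADM41.T_le h hh
      have := Nat.le_of_dvd (by omega) hd
      omega

end Pool.Agent.Helper27.BG
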